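import Pool.Agent.Helper79.GT.St5

/-!
# Project GT (MP_c2d095_lc), module E1X: the functions of the procedure, first part
-/

set_option autoImplicit false

namespace Pool.Agent.Helper63.GT

open Pool.Agent.Helper19.SK Pool.Agent.Helper73.DC Pool.Agent.Helper79.GS Pool.Agent.Helper79.GT Finset

private theorem ei1 {p : List (Fin 5) → (ℕ → ℕ) → Prop} {inst : ∀ w v, Decidable (p w v)} {F G : VF (Fin 5)}
    (hp : E2P p) (hF : E2 F) (hG : E2 G) : E2 (fun w v => @ite ℕ (p w v) (inst w v) (F w v) (G w v)) := by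
  have h := e_ite hp hF hG
  have e : (fun w v => @ite ℕ (p w v) (inst w v) (F w v) (G w v)) =
      fun w v => @ite ℕ (p w v) (Classical.propDecidable _) (F w v) (G w v) := by
    funext w v
    congr
  rw [e]
  exact h

theorem hE1X (hEA : StEA) (hEFX : StEFX) : Pool.Agent.Helper79.GT.StE1X := by
  intro X hX N Z A hN hZ hA
  obtain ⟨hLL, hN4, hzz, hfi, hc, hVN, hent, hb01⟩ := hEFX X hX
  have hf : ∀ i : ℕ, E2 (fun w v => fiX X (N w v) w (Z w v) i) := fun i =>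
    hfi N Z (fun _ _ => i) hN hZ (e_con i)
  have hT : ∀ i : ℕ, E2P (fun w v => fiX X (N w v) w (Z w v) 0 = i) := fun i => e_eq (hf 0) (e_con i)
  have har : ∀ i k : ℕ, E2 (fun w v => X.ar (N w v) w i (fiX X (N w v) w (Z w v) k)) := fun i k =>
    hX.ear N (fun _ _ => i) (fun w v => fiX X (N w v) w (Z w v) k) hN (e_con i) (hf k)
  refine ⟨?_, ?_, ?_, ?_⟩
  · unfold IniX ini6X
    refine ei1 (hT 6) (hb01 _ ?_) (e_con 0)
    refine e_and (e_imp (e_eq (hf 8) (e_con 1)) (e_ne (hf 10) (hf 5))) ?_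
    refine e_and (e_eq (e_add (har 1 10) (har 0 5)) (e_add (har 1 5) (har 0 10))) ?_
    refine e_and (hc N (fun w v => fiX X (N w v) w (Z w v) 2)
      (fun w v => fiX X (N w v) w (Z w v) 10) (fun w v => fiX X (N w v) w (Z w v) 11) hN (hf 2) (hf 10)
      (hf 11)).2.2.1 ?_
    refine e_and (e_not (hVN N (fun w v => fiX X (N w v) w (Z w v) 2) (fun w v => fiX X (N w v) w (Z w v) 3)
      (fun w v => fiX X (N w v) w (Z w v) 4) (fun w v => 1 - fiX X (N w v) w (Z w v) 2)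
      (fun w v => fiX X (N w v) w (Z w v) 11) hN (hf 2) (hf 3) (hf 4) (e_sub (e_con 1) (hf 2)) (hf 11))) ?_
    exact e_or (e_eq (hf 10) (hf 5)) (e_not (hVN N (fun w v => fiX X (N w v) w (Z w v) 2)
      (fun w v => fiX X (N w v) w (Z w v) 3) (fun w v => fiX X (N w v) w (Z w v) 4)
      (fun w v => fiX X (N w v) w (Z w v) 2) (fun w v => fiX X (N w v) w (Z w v) 10) hN (hf 2) (hf 3) (hf 4)
      (hf 2) (hf 10)))
  · unfold LenX
    have hNb := (hN4 N hN).2.1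
    have hSd := (hN4 N hN).2.2.2
    have hXb := (hEA.2.2.1 N (fun w _ => LX X w) (fun _ _ => 0) hN hLL (e_con 0)).2.1
    have hah := (hc N (fun w v => fiX X (N w v) w (Z w v) 2)
      (fun w v => fiX X (N w v) w (Z w v) 5) (fun _ _ => 0) hN (hf 2) (hf 5) (e_con 0)).1
    refine ei1 (hT 1) (ei1 hah (e_add hNb (e_con 2)) (e_con 1)) ?_
    refine ei1 (hT 2) (ei1 (e_eq (hf 1) (e_con 0)) (e_con 0) hNb) ?_
    refine ei1 (hT 3) (ei1 (e_eq (hf 6) (e_con 0)) (e_con 0)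
      (e_add (e_mul (e_con 2) (e_add hNb (e_con 1))) (e_con 1))) ?_
    refine ei1 (hT 4) hXb ?_
    refine ei1 (hT 5) (ei1 (e_eq (hf 9) (e_con 0)) (e_con 1) (e_mul (e_con 2) hSd)) ?_
    exact ei1 (hT 6) (e_con 3) (ei1 (hT 7) (e_con 1) (e_con 0))
  · unfold OutX
    have h1 : E2 (fun w v => b01 (A w v = 1)) := hb01 _ (e_eq hA (e_con 1))
    exact ei1 (hT 3) h1 (ei1 (hT 5) (e_mod hA (hN4 N hN).1) h1)
  · unfold Z0X
    exact hzz N (fun _ _ => 7) (fun w _ => X.R w) (fun w _ => X.pl w) (fun _ _ => 0) (fun _ _ => 0)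
      (fun w v => X.b0 (N w v) w) (fun _ _ => 0) (fun _ _ => 0) (fun _ _ => 0) (fun _ _ => 0) (fun _ _ => 0)
      (fun _ _ => 0) (fun _ _ => 0) hN (e_con 7) hX.eR hX.epl (e_con 0) (e_con 0) (hX.eb N hN) (e_con 0)
      (e_con 0) (e_con 0) (e_con 0) (e_con 0) (e_con 0) (e_con 0)

end Pool.Agent.Helper63.GT
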