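import Pool.Agent.Helper79.GT.St5

/-!
# Project GT (MP_c2d095_lc), module E3X: the steps of the procedure are E2
-/

set_option autoImplicit false

namespace Pool.Agent.Helper63.GT

open Pool.Agent.Helper19.SK Pool.Agent.Helper73.DC Pool.Agent.Helper79.GS Pool.Agent.Helper79.GT Finset
open scoped Classical

private theorem ei3 {p : List (Fin 5) → (ℕ → ℕ) → Prop} {F G : VF (Fin 5)} (inst : ∀ w v, Decidable (p w v))
    (hp : E2P p) (hF : E2 F) (hG : E2 G) :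
    E2 (fun w v => @ite ℕ (p w v) (inst w v) (F w v) (G w v)) := by
  have h := e_ite hp hF hG
  have e : (fun w v => @ite ℕ (p w v) (inst w v) (F w v) (G w v)) =
      fun w v => @ite ℕ (p w v) (Classical.propDecidable _) (F w v) (G w v) := by
    funext w v
    by_cases hh : p w v
    · rw [if_pos hh, if_pos hh]
    · rw [if_neg hh, if_neg hh]
  rw [e]
  exact h

theorem hE3X (hEA : StEA) (hEFX : StEFX) : Pool.Agent.Helper79.GT.StE3X := by
  intro X hX N Z J A Y hN hZ hJ hA hY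
  obtain ⟨hLL, hN4, hzz, hfi, hc, hVN, hent, hb01⟩ := hEFX X hX
  have f : ∀ i : ℕ, E2 (fun w v => fiX X (N w v) w (Z w v) i) := fun i =>
    hfi N Z (fun _ _ => i) hN hZ (e_con i)
  have hah : ∀ C U : VF (Fin 5), E2 C → E2 U → E2P (fun w v => ahX X (N w v) w (C w v) (U w v)) :=
    fun C U hC hU => (hc N C U (fun _ _ => 0) hN hC hU (e_con 0)).1
  have hP : E2 (fun w v => PhX X (N w v) w) := (hN4 N hN).1
  have s1 : ∀ C U : VF (Fin 5), E2 C → E2 U →
      E2 (fun w v => stp1X X (N w v) w (C w v) (U w v) (J w v) (A w v) (Y w v)) := by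
    intro C U hC hU
    unfold stp1X
    refine ei3 _ (hah C U hC hU) ?_ ?_
    · refine ei3 _ (e_eq hJ (e_con 0)) (hb01 _ (e_or (e_eq hA (e_con 1)) (e_ne hY (e_con 0)))) ?_
      refine ei3 _ (e_eq hJ (e_con 1)) (hb01 _ (e_or (e_eq hA (e_con 1)) (e_eq hY (e_con 0)))) ?_
      exact hb01 _ (e_or (e_eq hA (e_con 1)) (e_and
        (hc N C U (fun w v => J w v - 2) hN hC hU (e_sub hJ (e_con 2))).2.2.2.1 (e_eq hY (e_con 0))))
    · exact hb01 _ (e_ne hY (e_con 0))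
  have s2 : ∀ C U : VF (Fin 5), E2 C → E2 U →
      E2 (fun w v => stp2X X (N w v) w (C w v) (U w v) (J w v) (A w v) (Y w v)) := by
    intro C U hC hU
    unfold stp2X
    exact hb01 _ (e_or (e_eq hA (e_con 1)) (e_and (hc N C U J hN hC hU hJ).2.2.2.2 (e_eq hY (e_con 0))))
  have s3 : E2 (fun w v => stp3 (J w v) (A w v) (Y w v)) := by
    unfold stp3
    refine ei3 _ (e_eq hJ (e_con 0)) (hb01 _ (e_ne hY (e_con 0))) ?_
    refine ei3 _ (e_eq hA (e_con 1)) (e_con 1) ?_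
    refine ei3 _ (e_eq (e_mod (e_sub hJ (e_con 1)) (e_con 2)) (e_con 0)) ?_ ?_
    · exact ei3 _ (e_ne hY (e_con 0)) (e_con 2) (e_con 0)
    · exact hb01 _ (e_and (e_eq hA (e_con 2)) (e_eq hY (e_con 0)))
  have s4 : E2 (fun w v => stp4 (A w v) (Y w v)) := by
    unfold stp4
    exact hb01 _ (e_or (e_eq hA (e_con 1)) (e_ne hY (e_con 0)))
  have s5 : ∀ M D S T V : VF (Fin 5), E2 M → E2 D → E2 S → E2 T → E2 V →
      E2 (fun w v => stp5X X (N w v) w (M w v) (D w v) (S w v) (T w v) (V w v) (J w v) (A w v) (Y w v)) := by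
    intro M D S T V hM hD hS hT hV
    unfold stp5X
    refine ei3 _ (e_eq hD (e_con 0)) (hent N M S T V Y hN hM hS hT hV hY) ?_
    refine ei3 _ (e_eq (e_mod hJ (e_con 2)) (e_con 0)) ?_ ?_
    · exact e_add (e_mod hA hP) (e_mul hP (e_mod hY hP))
    · exact e_mod (e_add (e_mod hA hP) (e_mul (e_div hA hP) hY))
        (e_add (hEA.2.2.1 N (fun w _ => LX X w) V hN hLL hV).2.2.1 (e_con 1))
  have s6 : ∀ C U S T : VF (Fin 5), E2 C → E2 U → E2 S → E2 T →
      E2 (fun w v => stp6X X (N w v) w (C w v) (U w v) (S w v) (T w v) (J w v) (A w v) (Y w v)) := by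
    intro C U S T hC hU hS hT
    unfold stp6X
    refine ei3 _ (e_eq hJ (e_con 0))
      (hb01 _ (e_and (e_eq hA (e_con 1)) (e_or (e_eq hS hU) (e_eq hY (e_con 0))))) ?_
    refine ei3 _ (e_eq hJ (e_con 1)) (hb01 _ (e_and (e_eq hA (e_con 1)) (e_eq hY (e_con 0)))) ?_
    exact hb01 _ (e_and (e_eq hA (e_con 1)) (e_or (hah C T hC hT) (e_ne hY (e_con 0))))
  unfold StpX
  refine ei3 _ (e_eq (f 0) (e_con 1)) (s1 _ _ (f 2) (f 5)) ?_
  refine ei3 _ (e_eq (f 0) (e_con 2)) (s2 _ _ (f 2) (f 5)) ?_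
  refine ei3 _ (e_eq (f 0) (e_con 3)) s3 ?_
  refine ei3 _ (e_eq (f 0) (e_con 4)) s4 ?_
  refine ei3 _ (e_eq (f 0) (e_con 5)) (s5 _ _ _ _ _ (f 7) (f 9) (f 10) (f 11) (f 12)) ?_
  refine ei3 _ (e_eq (f 0) (e_con 6)) (s6 _ _ _ _ (f 2) (f 5) (f 10) (f 11)) ?_
  refine ei3 _ (e_eq (f 0) (e_con 7)) ?_ (e_con 0)
  exact ei3 _ (e_eq (f 2) (e_con 1)) (hb01 _ (e_ne hY (e_con 0))) (hb01 _ (e_eq hY (e_con 0)))

end Pool.Agent.Helper63.GT
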