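import Pool.Agent.Helper79.GT.St5

/-!
# Project GT (MP_c2d095_lc), module EFX: the fields are E2
-/

set_option autoImplicit false

namespace Pool.Agent.Helper63.GT

open Pool.Agent.Helper19.SK Pool.Agent.Helper73.DC Pool.Agent.Helper79.GS Pool.Agent.Helper79.GT Finset
open scoped Classical

private theorem ofdX (B T r c a b u k m fl d s t x : ℕ) :
    Nat.ofDigits B [T, r, c, a, b, u, k, m, fl, d, s, t, x] =
      T + B * (r + B * (c + B * (a + B * (b + B * (u + B * (k + B * (m + B * (fl + B * (d + B * (s + B * (t + B * x))))))))))) := by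
  simp only [Nat.ofDigits_cons, Nat.ofDigits_nil]
  rfl

private theorem eiX {p : List (Fin 5) → (ℕ → ℕ) → Prop} {F G : VF (Fin 5)} (inst : ∀ w v, Decidable (p w v))
    (hp : E2P p) (hF : E2 F) (hG : E2 G) :
    E2 (fun w v => @ite ℕ (p w v) (inst w v) (F w v) (G w v)) := by
  have h := e_ite hp hF hG
  have e : (fun w v => @ite ℕ (p w v) (inst w v) (F w v) (G w v)) =
      fun w v => @ite ℕ (p w v) (Classical.propDecidable _) (F w v) (G w v) := by
    funext w v
    by_cases hh : p w v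
    · rw [if_pos hh, if_pos hh]
    · rw [if_neg hh, if_neg hh]
  rw [e]
  exact h

/-- a constant proposition implies `p` -/
private theorem ecimp (q : Prop) {p : List (Fin 5) → (ℕ → ℕ) → Prop} (hp : E2P p) :
    E2P (fun w v => q → p w v) := by
  by_cases hq : q
  · have e : (fun w v => q → p w v) = p := by
      funext w v
      exact propext ⟨fun h => h hq, fun h _ => h⟩
    rw [e]
    exact hp
  · have e : (fun (w : List (Fin 5)) (v : ℕ → ℕ) => q → p w v) = (fun _ _ => True) := by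
      funext w v
      exact propext ⟨fun _ => trivial, fun _ h => absurd h hq⟩
    rw [e]
    exact e_true

private theorem eiteP {p q r : List (Fin 5) → (ℕ → ℕ) → Prop} (inst : ∀ w v, Decidable (p w v))
    (hp : E2P p) (hq : E2P q) (hr : E2P r) :
    E2P (fun w v => @ite Prop (p w v) (inst w v) (q w v) (r w v)) := by
  have h := e_or (e_and hp hq) (e_and (e_not hp) hr)
  have e : (fun w v => @ite Prop (p w v) (inst w v) (q w v) (r w v)) =
      fun w v => (p w v ∧ q w v) ∨ (¬ p w v ∧ r w v) := by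
    funext w v
    by_cases hh : p w v
    · rw [if_pos hh]
      exact propext ⟨fun h => Or.inl ⟨hh, h⟩, fun h => h.elim (fun h => h.2) (fun h => absurd hh h.1)⟩
    · rw [if_neg hh]
      exact propext ⟨fun h => Or.inr ⟨hh, h⟩, fun h => h.elim (fun h => absurd h.1 hh) (fun h => h.2)⟩
  rw [e]
  exact h

theorem hEFX (hEA : StEA) : Pool.Agent.Helper79.GT.StEFX := by
  intro X hX
  obtain ⟨_, hwt, hQ, htr, hpadS⟩ := hEA
  have hLL : E2 (α := Fin 5) (fun w _ => LX X w) := e_add hX.eK (e_con 1)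
  have hPh : ∀ N : VF (Fin 5), E2 N → E2 (fun w v => PhX X (N w v) w) := fun N hN =>
    e_pw hN (e_con 2) (e_add (e_add (e_add (e_mul (e_con 32) (e_powc (e_add hX.eK (e_con 2)) 2)) hX.eR) hX.eS)
      (e_con 16))
  have hNb : ∀ N : VF (Fin 5), E2 N → E2 (fun w v => NbX X (N w v) w) := fun N hN =>
    e_pw hN (e_con 2) hX.eK
  have hnm : ∀ N : VF (Fin 5), E2 N → E2 (fun w v => nmX X (N w v) w) := fun N hN =>
    e_pw hN (e_con 2) hLL
  have hSd : ∀ N : VF (Fin 5), E2 N → E2 (fun w v => SdX X (N w v) w) := fun N hN =>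
    e_mul (e_add (hnm N hN) (e_con 1)) (e_add (hnm N hN) (e_con 2))
  have hrv : ∀ N C U Y : VF (Fin 5), E2 N → E2 C → E2 U → E2 Y →
      E2P (fun w v => rvX X (N w v) w (C w v) (U w v) (Y w v)) := fun N C U Y hN hC hU hY =>
    e_and (hX.emv N C U Y hN hC hU hY)
      (hX.emv N (fun w v => 1 - C w v) Y U hN (e_sub (e_con 1) hC) hY hU)
  refine ⟨hLL, fun N hN => ⟨hPh N hN, hNb N hN, hnm N hN, hSd N hN⟩, ?_, ?_, ?_, ?_, ?_, ?_⟩
  · intro N T r c a b u k m fl d s t x hN hT hr hc ha hb hu hk hm hfl hd hs ht hx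
    have hB := hPh N hN
    have h := e_add hT (e_mul hB (e_add hr (e_mul hB (e_add hc (e_mul hB (e_add ha (e_mul hB (e_add hb
      (e_mul hB (e_add hu (e_mul hB (e_add hk (e_mul hB (e_add hm (e_mul hB (e_add hfl (e_mul hB (e_add hd
      (e_mul hB (e_add hs (e_mul hB (e_add ht (e_mul hB hx)))))))))))))))))))))))
    simp only [zzX, ofdX]
    exact h
  · intro N Z I hN hZ hI
    exact e_dg (hPh N hN) hZ hI
  · intro N C U Y hN hC hU hY
    have ha0 := hX.ear N (fun _ _ => 0) U hN (e_con 0) hU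
    have ha1 := hX.ear N (fun _ _ => 1) U hN (e_con 1) hU
    have hlt := e_lt ha0 ha1
    have hHY := e_not (hX.eH N (fun w v => 1 - C w v) Y hN (e_sub (e_con 1) hC) hY)
    refine ⟨?_, ?_, hrv N C U Y hN hC hU hY, ?_, ?_⟩
    · unfold ahX
      exact eiteP _ (e_eq hC (e_con 1)) hlt (e_not hlt)
    · unfold idX
      exact eiX _ (e_eq hC (e_con 1)) (e_add (e_div (e_sub ha0 ha1) (e_con 4)) (e_con 1))
        (e_add (e_div (e_sub (e_sub ha1 ha0) (e_con 1)) (e_con 4)) (e_con 1))
    · exact e_and (hrv N C U Y hN hC hU hY) (e_and hHY (e_ne hY hU))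
    · exact e_and (hX.emv N C U Y hN hC hU hY)
        (e_and (e_not (hX.emv N (fun w v => 1 - C w v) Y U hN (e_sub (e_con 1) hC) hY hU)) hHY)
  · intro N C A B P Y hN hC hA hB hP hY
    unfold VNX
    refine e_or (hX.eH N P Y hN hP hY) (e_or (e_and (e_eq hY hA) ?_) (e_and (e_eq hY hB) ?_))
    · exact ecimp _ (e_eq hP (e_sub (e_con 1) hC))
    · exact ecimp _ (e_eq hP hC)
  · intro N m s t x y hN hm hs ht hx hy
    have hn := hnm N hN
    obtain ⟨hK, hI, hJ⟩ := htr (fun w v => nmX X (N w v) w) s t hn hs ht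
    obtain ⟨-, -, hxq, -⟩ := hQ N (fun w _ => LX X w) x hN hLL hx
    have hxq1 := e_add hxq (e_con 1)
    have hev := (hwt N (fun w _ => LX X w) x _ _ hN hLL hx hI hJ).2
    have hP := hpadS (fun w v => NbX X (N w v) w) m _ _ (hNb N hN) hm hI hJ
    have hlt := e_and (e_lt hI (hNb N hN)) (e_and (e_lt hJ (hNb N hN)) (e_ne hy (e_con 0)))
    unfold entX
    exact eiX _ (e_eq hK (e_con 1)) (e_mod (e_con 1) hxq1)
      (eiX _ (e_eq hK (e_con 0)) (e_con 0) (eiX _ (e_or hlt hP)
        (eiX _ (e_eq hK (e_con 2)) (e_mod (e_sub hxq1 hev) hxq1) hev) (e_con 0)))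
  · intro p hp
    unfold b01
    exact hp

end Pool.Agent.Helper63.GT
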